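import Mathlib
import Pool.Agent.Helper74.FB.DenseT

/-! # Patterns of primes in several intervals `(x, x + √x)`

For every `j < J` an admissible family of sufficiently many nonconstant polynomials `g j k`, `k ∈ I`, with
coefficients in `ℕ` is given (for instance `g j k = x + h k`), and a progression `s j + q j * m` with an arbitrary
start `s j` and an arbitrary difference `q j ≤ G φ(q j)`. Let `𝒬 ⊆ [1, Y]` be any set of at least `d Y` integers. For
a positive proportion of the `J`-tuples of integers `x j ≤ X` there are `r` of the `k` such that for many `m ∈ 𝒬` all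
the `r J` numbers `x j + g j k (s j + q j * m)` are primes in the intervals `(x j, x j + √(x j))`. -/

set_option autoImplicit false

namespace Pool.Agent.Results.MP_b8a134_nt.CommonDisplacements

open Finset Polynomial

/-- `z` is a prime in the interval `(x, x + √x)` -/
def PrimeIn (x z : ℕ) : Prop := z.Prime ∧ x < z ∧ (z : ℝ) < x + Real.sqrt x

/-- for every `j` the polynomials `g j k`, `k ∈ I`, are different, of degrees between `1` and `D`, and for every prime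
`p` and every `u` the numbers `g j k (u)`, `k ∈ I`, miss a class modulo `p` -/
def Admissible {J : ℕ} (I : Finset ℕ) (g : Fin J → ℕ → ℕ[X]) (D : ℕ) : Prop :=
  ∀ j, (∀ k ∈ I, 1 ≤ (g j k).natDegree ∧ (g j k).natDegree ≤ D) ∧ (∀ k ∈ I, ∀ k' ∈ I, g j k = g j k' → k = k') ∧
    ∀ p : ℕ, p.Prime → ∀ u : ℕ, ∃ w : ℕ, ∀ k ∈ I, ¬ p ∣ w + (g j k).eval u

open Classical in
/-- for `r` of the `k` there are at least `B` of the `m ∈ 𝒬` such that all the `x j + g j k (s j + q j * m)` are primes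
in `(x j, x j + √(x j))` -/
def Many {J : ℕ} (I : Finset ℕ) (g : Fin J → ℕ → ℕ[X]) (s q : Fin J → ℕ) (r : ℕ) (𝒬 : Finset ℕ) (B : ℝ)
    (x : Fin J → ℕ) : Prop :=
  ∃ P ⊆ I, P.card = r ∧
    B ≤ (((𝒬.filter (fun m : ℕ => ∀ j, ∀ k ∈ P, PrimeIn (x j) (x j + (g j k).eval (s j + q j * m)))).card : ℕ) : ℝ)

theorem eval_le (g : ℕ[X]) (D Y p : ℕ) (hg : g.natDegree ≤ D) (hp : p ≤ Y) (hY : 1 ≤ Y) :
    g.eval p ≤ g.eval 1 * Y ^ D := by
  rw [eval_eq_sum_range, eval_eq_sum_range, sum_mul]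
  apply sum_le_sum
  intro k hk
  rw [mem_range] at hk
  rw [one_pow, mul_one]
  refine Nat.mul_le_mul_left _ ((Nat.pow_le_pow_left hp k).trans (Nat.pow_le_pow_right hY (by omega)))

theorem one_le_eval (g : ℕ[X]) (n : ℕ) (hg : 1 ≤ g.natDegree) (hn : 1 ≤ n) : 1 ≤ g.eval n := by
  have h0 : g ≠ 0 := by
    rintro rfl
    simp at hg
  have h1 : 1 ≤ g.leadingCoeff := Nat.one_le_iff_ne_zero.2 (leadingCoeff_ne_zero.2 h0)
  rw [eval_eq_sum_range]
  refine le_trans ?_ (single_le_sum (f := fun i => g.coeff i * n ^ i) (fun _ _ => Nat.zero_le _)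
    (mem_range.2 (Nat.lt_succ_self g.natDegree)))
  exact Nat.mul_le_mul h1 (Nat.one_le_pow _ _ hn)

theorem map_eval (g : ℕ[X]) (p : ℕ) : (g.map (Nat.castRingHom ℤ)).eval (p : ℤ) = ((g.eval p : ℕ) : ℤ) := by
  rw [eval_map, ← Nat.coe_castRingHom, eval₂_at_apply]

open Classical in
/-- **Patterns of primes in several intervals `(x, x + √x)`.** -/
theorem result (J r : ℕ) (hJ : 1 ≤ J) (hr : 1 ≤ r) : ∃ K : ℕ, ∀ D : ℕ, ∃ A : ℕ, ∀ (I : Finset ℕ)
    (g : Fin J → ℕ → ℕ[X]), K ≤ I.card → Admissible I g D → ∀ d : ℝ, 0 < d → ∀ G : ℝ, ∃ κ : ℝ, 0 < κ ∧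
      ∃ X₀ : ℕ, ∀ X : ℕ, X₀ ≤ X → ∀ Y : ℕ, Real.log X ^ A ≤ Y → ∀ s q : Fin J → ℕ,
      (∀ j, 1 ≤ q j ∧ (q j : ℝ) ≤ G * (q j).totient ∧ ((s j : ℝ) + q j * Y) ^ (2 * D) ≤ κ * X) →
      ∀ 𝒬 ⊆ Icc 1 Y, d * Y ≤ (𝒬.card : ℝ) →
      κ * (X : ℝ) ^ J ≤ (({x ∈ Fintype.piFinset (fun _ : Fin J => Icc 1 X) |
        Many I g s q r 𝒬 (Y / Real.log X ^ A) x}.card : ℕ) : ℝ) := by
  obtain ⟨K, h1⟩ := Pool.Agent.Helper74.FB.denseTJ J r hr
  refine ⟨K + 1, fun D => ?_⟩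
  obtain ⟨B, h1⟩ := h1 D
  refine ⟨B, fun I g hI hadm d hd G => ?_⟩
  obtain ⟨A, hA⟩ : ∃ A : Fin J → ℕ → ℤ[X], A = fun j k => (g j k).map (Nat.castRingHom ℤ) := ⟨_, rfl⟩
  have hnd : ∀ j k, (A j k).natDegree = (g j k).natDegree := by
    intro j k
    rw [hA]
    exact natDegree_map_eq_of_injective (RingHom.injective_nat _) _
  have hev : ∀ j k, ∀ x : ℕ, (A j k).eval (x : ℤ) = (((g j k).eval x : ℕ) : ℤ) := by
    intro j k x
    rw [hA]
    exact map_eval _ _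
  obtain ⟨κ₀, hκ₀, X₀, h2⟩ := h1 I (by omega) A (fun j k hk => by
      rw [hnd]
      exact ((hadm j).1 k hk).1) (fun j k hk => by
      rw [hnd]
      exact ((hadm j).1 k hk).2) (by
      intro j k hk k' hk' heq
      rw [hA] at heq
      exact (hadm j).2.1 k hk k' hk' (map_injective _ (RingHom.injective_nat _) heq)) (by
      intro p hp u j
      have hp0 : (0 : ℤ) < p := by exact_mod_cast hp.pos
      obtain ⟨v, hv⟩ : ∃ v : ℕ, (v : ℤ) = u % p := ⟨(u % p).toNat, Int.toNat_of_nonneg (Int.emod_nonneg _ hp0.ne')⟩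
      have hvu : (p : ℤ) ∣ u - v := by
        rw [hv]
        exact Int.dvd_self_sub_emod
      obtain ⟨w, hw⟩ := (hadm j).2.2 p hp v
      refine ⟨w, fun k hk hd => hw k hk ?_⟩
      have h4 : (p : ℤ) ∣ (A j k).eval u - (A j k).eval (v : ℤ) := hvu.trans (sub_dvd_eval_sub u v (A j k))
      have h5 := dvd_sub hd h4
      have e5 : (w : ℤ) + (A j k).eval u - ((A j k).eval u - (A j k).eval (v : ℤ)) =
          ((w + (g j k).eval v : ℕ) : ℤ) := by
        rw [hev]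
        push_cast
        ring
      rw [e5] at h5
      exact Int.natCast_dvd_natCast.1 h5) d hd G
  obtain ⟨C, hC⟩ : ∃ C : ℕ, C = ∑ j, ∑ k ∈ I, (g j k).eval 1 := ⟨_, rfl⟩
  have hCle : ∀ j, ∀ k ∈ I, (g j k).eval 1 ≤ C := by
    intro j k hk
    rw [hC]
    exact (single_le_sum (f := fun k => (g j k).eval 1) (fun _ _ => Nat.zero_le _) hk).trans
      (single_le_sum (f := fun j => ∑ k ∈ I, (g j k).eval 1) (fun _ _ => Nat.zero_le _) (mem_univ j))
  obtain ⟨κ, hκ⟩ : ∃ κ : ℝ, κ = min κ₀ (1 / (64 * ((C : ℝ) + 1) ^ 2)) := ⟨_, rfl⟩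
  have hκpos : 0 < κ := by rw [hκ]; exact lt_min hκ₀ (by positivity)
  have hκ₀' : κ ≤ κ₀ := by rw [hκ]; exact min_le_left _ _
  have hκS : κ ≤ 1 / (64 * ((C : ℝ) + 1) ^ 2) := by rw [hκ]; exact min_le_right _ _
  refine ⟨κ, hκpos, X₀ + 3, fun X hX Y hY1 s q hsq 𝒬 h𝒬 hcard => ?_⟩
  have hXr : (3 : ℝ) ≤ X := by exact_mod_cast (by omega : 3 ≤ X)
  have hlog : 0 < Real.log X := Real.log_pos (by linarith)
  have hY1' : (1 : ℝ) ≤ Y := by
    have h0 : (0 : ℝ) < Y := lt_of_lt_of_le (by positivity) hY1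
    have : 0 < Y := by exact_mod_cast h0
    exact_mod_cast this
  have hYn : 1 ≤ Y := by exact_mod_cast hY1'
  obtain ⟨k₁, hk₁⟩ : I.Nonempty := by
    rw [← card_pos]
    omega
  have hD1 : 1 ≤ D := le_trans ((hadm ⟨0, hJ⟩).1 k₁ hk₁).1 ((hadm ⟨0, hJ⟩).1 k₁ hk₁).2
  have hT : ∀ j, (Y : ℝ) ≤ (s j : ℝ) + q j * Y := by
    intro j
    have h4 : (1 : ℝ) ≤ q j := by exact_mod_cast (hsq j).1
    have h5 : (0 : ℝ) ≤ s j := Nat.cast_nonneg _
    nlinarith
  have hT1 : ∀ j, (1 : ℝ) ≤ (s j : ℝ) + q j * Y := fun j => hY1'.trans (hT j)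
  have hκX : κ * X ≤ κ₀ * X := mul_le_mul_of_nonneg_right hκ₀' (by linarith)
  have hYκ : (Y : ℝ) ≤ κ₀ * X :=
    (hT ⟨0, hJ⟩).trans ((le_self_pow₀ (hT1 ⟨0, hJ⟩) (by omega)).trans ((hsq ⟨0, hJ⟩).2.2.trans hκX))
  have hGG : ∀ j, Pool.Agent.Erdos456.GG (q j) ≤ G := by
    intro j
    obtain ⟨h3, h4, -⟩ := hsq j
    have hφ : (0 : ℝ) < (q j).totient := by exact_mod_cast Nat.totient_pos.2 (by omega)
    unfold Pool.Agent.Erdos456.GG
    rw [div_le_iff₀ hφ]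
    exact h4
  have hSY : ∀ j, 64 * (C * (s j + q j * Y) ^ D) ^ 2 ≤ X := by
    intro j
    have h3 : (64 : ℝ) * (C * ((s j : ℝ) + q j * Y) ^ D) ^ 2 ≤ X := by
      have h4 : ((C : ℝ)) ^ 2 ≤ ((C : ℝ) + 1) ^ 2 := by
        have : (0 : ℝ) ≤ C := Nat.cast_nonneg C
        nlinarith
      calc (64 : ℝ) * (C * ((s j : ℝ) + q j * Y) ^ D) ^ 2 =
            64 * (C : ℝ) ^ 2 * ((s j : ℝ) + q j * Y) ^ (2 * D) := by ring
        _ ≤ 64 * ((C : ℝ) + 1) ^ 2 * (1 / (64 * ((C : ℝ) + 1) ^ 2) * X) := by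
            have h5 : ((s j : ℝ) + q j * Y) ^ (2 * D) ≤ 1 / (64 * ((C : ℝ) + 1) ^ 2) * X :=
              (hsq j).2.2.trans (mul_le_mul_of_nonneg_right hκS (by linarith))
            have h6 : 0 ≤ ((s j : ℝ) + q j * Y) ^ (2 * D) := pow_nonneg (by linarith [hT1 j]) _
            gcongr
        _ = X := by field_simp
    exact_mod_cast h3
  refine (mul_le_mul_of_nonneg_right hκ₀' (by positivity)).trans
    ((h2 X (by omega) Y hY1 hYκ q s (fun j => ⟨(hsq j).1, hGG j⟩) (fun j k hk => by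
      rw [hnd]
      refine (pow_le_pow_right₀ (hT1 j) ?_).trans ((hsq j).2.2.trans hκX)
      have := ((hadm j).1 k hk).2
      omega) 𝒬 h𝒬 hcard).trans ?_)
  rw [Nat.cast_le]
  apply card_le_card
  intro x hx
  obtain ⟨hx1, hx2, P, hP, hPc, hcl⟩ := mem_filter.1 hx
  refine mem_filter.2 ⟨hx1, P, hP, hPc, hcl.trans ?_⟩
  rw [Nat.cast_le]
  apply card_le_card
  intro m hm
  obtain ⟨hm1, hm2⟩ := mem_filter.1 hm
  refine mem_filter.2 ⟨hm1, fun j k hk => ?_⟩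
  obtain ⟨t, ht, ht2⟩ := hm2 j k hk
  obtain ⟨hm3, hm4⟩ := mem_Icc.1 (h𝒬 hm1)
  have hq1 := (hsq j).1
  have hle1 : 1 ≤ s j + q j * m := by
    have : 1 * 1 ≤ q j * m := Nat.mul_le_mul hq1 hm3
    omega
  have hle2 : s j + q j * m ≤ s j + q j * Y := Nat.add_le_add_left (Nat.mul_le_mul_left _ hm4) _
  have e1 : x j + (g j k).eval (s j + q j * m) = t := by
    have e2 : ((x j + (g j k).eval (s j + q j * m) : ℕ) : ℤ) = t := by
      have e3 : (q j : ℤ) * m + s j = ((s j + q j * m : ℕ) : ℤ) := by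
        push_cast
        ring
      rw [ht2, e3, hev]
      push_cast
      ring
    exact_mod_cast e2
  refine ⟨by rw [e1]; exact ht, ?_, ?_⟩
  · have := one_le_eval (g j k) _ ((hadm j).1 k (hP hk)).1 hle1
    omega
  · have h5 : (g j k).eval (s j + q j * m) ≤ C * (s j + q j * Y) ^ D :=
      (eval_le (g j k) D _ _ ((hadm j).1 k (hP hk)).2 hle2 (by omega)).trans
        (Nat.mul_le_mul_right _ (hCle j k (hP hk)))
    have h6 : ((g j k).eval (s j + q j * m)) ^ 2 < x j := by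
      have h7 := Nat.pow_le_pow_left h5 2
      have h8 := hx2 j
      have h9 : 0 < x j := (mem_Icc.1 (Fintype.mem_piFinset.1 hx1 j)).1
      have h10 := hSY j
      omega
    have h10 : (((g j k).eval (s j + q j * m) : ℕ) : ℝ) < Real.sqrt (x j) := by
      rw [Real.lt_sqrt (by positivity)]
      exact_mod_cast h6
    push_cast at h10 ⊢
    linarith

end Pool.Agent.Results.MP_b8a134_nt.CommonDisplacements
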