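import Mathlib
import Pool.Agent.Helper74.FB.DenseA2

/-! # A prime and almost prime neighbours in the intervals `(x, x + √x)`, in progressions to large moduli

`a j`, `j < J`, are moduli with `a j ≤ G φ(a j)`, possibly as large as `√X / (log X) ^ A`, `𝒬 ⊆ [1, Y]` is any set of at
least `d Y` integers, `𝓗` is an admissible set of sufficiently many shifts and `h₀ ∈ 𝓗` is prescribed. For a positive
proportion of the `J`-tuples of integers `x j ≤ X` there are `r` shifts `h ≠ h₀` in `𝓗` such that for many `n ∈ 𝒬` all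
the `x j + a j (n + h₀)` are primes and all the `x j + a j (n + h)` have at most two prime factors; all these numbers
lie in the intervals `(x j, x j + √(x j))`. -/

set_option autoImplicit false

namespace Pool.Agent.Results.MP_b8a134_nt.PrescribedPrimeLargeModuli

open Finset

/-- `z` is a number with at most two prime factors (counted with multiplicity) in the interval `(x, x + √x)` -/
def AlmostPrimeIn (x z : ℕ) : Prop := z.primeFactorsList.length ≤ 2 ∧ x < z ∧ (z : ℝ) < x + Real.sqrt x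

/-- `z` is a prime in the interval `(x, x + √x)` -/
def PrimeIn (x z : ℕ) : Prop := z.Prime ∧ x < z ∧ (z : ℝ) < x + Real.sqrt x

/-- for every prime `p` the shifts miss a class modulo `p` -/
def Admissible (𝓗 : Finset ℕ) : Prop := ∀ p : ℕ, p.Prime → ∃ s : ℤ, ∀ h ∈ 𝓗, ¬ (p : ℤ) ∣ s + h

open Classical in
/-- for `r` of the shifts, different from `h₀`, there are at least `B` of the `n ∈ 𝒬` such that all the
`x j + a j * (n + h₀)` are primes in `(x j, x j + √(x j))` and all the `x j + a j * (n + h)` are almost primes in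
`(x j, x j + √(x j))` -/
def Many {J : ℕ} (a : Fin J → ℕ) (𝓗 : Finset ℕ) (h₀ r : ℕ) (𝒬 : Finset ℕ) (B : ℝ) (x : Fin J → ℕ) : Prop :=
  ∃ P ⊆ 𝓗.erase h₀, P.card = r ∧ B ≤ (((𝒬.filter (fun n : ℕ => ∀ j, PrimeIn (x j) (x j + a j * (n + h₀)) ∧
    ∀ h ∈ P, AlmostPrimeIn (x j) (x j + a j * (n + h)))).card : ℕ) : ℝ)

open Classical in
/-- **A prime and almost prime neighbours in short intervals, in progressions to large moduli.** -/
theorem result (J r : ℕ) (hJ : 1 ≤ J) : ∃ K A : ℕ, ∀ 𝓗 : Finset ℕ, K ≤ 𝓗.card → Admissible 𝓗 → ∀ h₀ ∈ 𝓗,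
    ∀ G d : ℝ, 0 < d → ∃ κ : ℝ, 0 < κ ∧ ∃ X₀ : ℕ, ∀ X : ℕ, X₀ ≤ X → ∀ Y : ℕ, Real.log X ^ A ≤ Y →
      ∀ a : Fin J → ℕ, (∀ j, 1 ≤ a j ∧ (a j : ℝ) ≤ G * (a j).totient ∧ ((a j : ℝ) * Y) ^ 2 ≤ κ * X) →
      ∀ 𝒬 ⊆ Icc 1 Y, d * Y ≤ (𝒬.card : ℝ) →
      κ * (X : ℝ) ^ J ≤ (({x ∈ Fintype.piFinset (fun _ : Fin J => Icc 1 X) |
        Many a 𝓗 h₀ r 𝒬 (Y / Real.log X ^ A) x}.card : ℕ) : ℝ) := by
  obtain ⟨K, B, h1⟩ := Pool.Agent.Helper74.FB.denseAQ J r
  refine ⟨K, B, fun 𝓗 h𝓗 hadm h₀ hh₀ G d hd => ?_⟩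
  obtain ⟨f, hf⟩ : ∃ f : ℕ → Polynomial ℤ, f = fun (i : ℕ) =>
    Polynomial.C (1 : ℤ) * Polynomial.X + Polynomial.C ((i : ℕ) : ℤ) := ⟨_, rfl⟩
  have hev : ∀ i, ∀ x : ℤ, (f i).eval x = x + i := by
    intro i x
    rw [hf]
    simp
  have hdeg : ∀ i, (f i).natDegree = 1 := by
    intro i
    rw [hf]
    exact Polynomial.natDegree_linear one_ne_zero
  obtain ⟨κ₀, hκ₀, X₀, h2⟩ := h1 𝓗 h𝓗 (fun _ i => f i) (fun _ i hi => by rw [hdeg i])
    (fun _ i hi i' hi' heq => by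
      have e0 : (f i).eval 0 = (f i').eval 0 := by rw [heq]
      rw [hev, hev] at e0
      have e2 : (i : ℤ) = i' := by linarith
      exact_mod_cast e2) (by
      intro p hp u j
      obtain ⟨s, hs⟩ := hadm p hp
      refine ⟨s - u, fun i hi hd => hs i hi ?_⟩
      rw [hev] at hd
      have e1 : s - u + (u + (i : ℤ)) = s + i := by ring
      rwa [e1] at hd) h₀ hh₀ d hd G
  obtain ⟨S, hS⟩ : ∃ S : ℕ, ∀ h ∈ 𝓗, h ≤ S :=
    ⟨∑ h ∈ 𝓗, h, fun h hh => single_le_sum (f := fun h => h) (fun _ _ => Nat.zero_le _) hh⟩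
  obtain ⟨κ, hκ⟩ : ∃ κ : ℝ, κ = min κ₀ (1 / (64 * ((S : ℝ) + 1) ^ 2)) := ⟨_, rfl⟩
  have hκpos : 0 < κ := by rw [hκ]; exact lt_min hκ₀ (by positivity)
  have hκ₀' : κ ≤ κ₀ := by rw [hκ]; exact min_le_left _ _
  have hκS : κ ≤ 1 / (64 * ((S : ℝ) + 1) ^ 2) := by rw [hκ]; exact min_le_right _ _
  refine ⟨κ, hκpos, X₀ + 3, fun X hX Y hY1 a ha 𝒬 h𝒬 hcard => ?_⟩
  have hXr : (3 : ℝ) ≤ X := by exact_mod_cast (by omega : 3 ≤ X)
  have hlog : 0 < Real.log X := Real.log_pos (by linarith)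
  have hY1' : (1 : ℝ) ≤ Y := by
    have h0 : (0 : ℝ) < Y := lt_of_lt_of_le (by positivity) hY1
    have : 0 < Y := by exact_mod_cast h0
    exact_mod_cast this
  have hGG : ∀ j, Pool.Agent.Erdos456.GG (a j) ≤ G := by
    intro j
    obtain ⟨h3, h4, -⟩ := ha j
    have hφ : (0 : ℝ) < (a j).totient := by exact_mod_cast Nat.totient_pos.2 (by omega)
    unfold Pool.Agent.Erdos456.GG
    rw [div_le_iff₀ hφ]
    exact h4
  have haY1 : ∀ j, (Y : ℝ) ≤ a j * Y := by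
    intro j
    exact le_mul_of_one_le_left (Nat.cast_nonneg Y) (by exact_mod_cast (ha j).1)
  have haY : ∀ j, (a j : ℝ) * Y ≤ κ₀ * X := by
    intro j
    have h3 : (1 : ℝ) ≤ a j * Y := hY1'.trans (haY1 j)
    exact ((le_self_pow₀ h3 (by norm_num)).trans (ha j).2.2).trans
      (mul_le_mul_of_nonneg_right hκ₀' (by linarith))
  have hSY : ∀ j, 64 * ((S + 1) * (a j * Y)) ^ 2 ≤ X := by
    intro j
    have h3 : (64 : ℝ) * (((S : ℝ) + 1) * (a j * Y)) ^ 2 ≤ X := by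
      calc (64 : ℝ) * (((S : ℝ) + 1) * (a j * Y)) ^ 2 = 64 * ((S : ℝ) + 1) ^ 2 * ((a j : ℝ) * Y) ^ 2 := by ring
        _ ≤ 64 * ((S : ℝ) + 1) ^ 2 * (1 / (64 * ((S : ℝ) + 1) ^ 2) * X) := by
            have h5 : ((a j : ℝ) * Y) ^ 2 ≤ 1 / (64 * ((S : ℝ) + 1) ^ 2) * X :=
              (ha j).2.2.trans (mul_le_mul_of_nonneg_right hκS (by linarith))
            gcongr
        _ = X := by field_simp
    exact_mod_cast h3
  refine (mul_le_mul_of_nonneg_right hκ₀' (by positivity)).trans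
    ((h2 X (by omega) Y hY1 ((haY1 ⟨0, hJ⟩).trans (haY ⟨0, hJ⟩)) a (fun j => ⟨(ha j).1, hGG j⟩)
      (fun j i hi => by rw [hdeg i, pow_one]; exact haY j) 𝒬 h𝒬 hcard).trans ?_)
  rw [Nat.cast_le]
  apply card_le_card
  intro x hx
  obtain ⟨hx1, hx2, P, hP, hPc, hcl⟩ := mem_filter.1 hx
  refine mem_filter.2 ⟨hx1, P, hP, hPc, hcl.trans ?_⟩
  rw [Nat.cast_le]
  apply card_le_card
  intro n hn
  obtain ⟨hn1, hn2⟩ := mem_filter.1 hn
  obtain ⟨hn3, hn4⟩ := mem_Icc.1 (h𝒬 hn1)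
  have hwin : ∀ j, ∀ h ∈ 𝓗, x j < x j + a j * (n + h) ∧
      ((x j + a j * (n + h) : ℕ) : ℝ) < x j + Real.sqrt (x j) := by
    intro j h hh
    have hh4 := hS h hh
    have ha1 := (ha j).1
    constructor
    · have : 1 * 1 ≤ a j * (n + h) := Nat.mul_le_mul ha1 (by omega)
      omega
    · have h5 : a j * (n + h) ≤ (S + 1) * (a j * Y) := by
        calc a j * (n + h) ≤ a j * (Y + S * Y) := by
              apply Nat.mul_le_mul_left
              have : h ≤ S * Y := hh4.trans (Nat.le_mul_of_pos_right _ (by omega))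
              omega
          _ = (S + 1) * (a j * Y) := by ring
      have h6 : (a j * (n + h)) ^ 2 < x j := by
        have h7 := Nat.pow_le_pow_left h5 2
        have h8 := hx2 j
        have h9 : 0 < x j := (mem_Icc.1 (Fintype.mem_piFinset.1 hx1 j)).1
        have h10 := hSY j
        omega
      have h10 : ((a j * (n + h) : ℕ) : ℝ) < Real.sqrt (x j) := by
        rw [Real.lt_sqrt (by positivity)]
        exact_mod_cast h6
      push_cast at h10 ⊢
      linarith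
  refine mem_filter.2 ⟨hn1, fun j => ?_⟩
  obtain ⟨⟨q, hq, hq2⟩, hq3⟩ := hn2 j
  refine ⟨?_, fun h hh => ?_⟩
  · have e1 : x j + a j * (n + h₀) = q := by
      have e2 : ((x j + a j * (n + h₀) : ℕ) : ℤ) = q := by
        rw [hq2, hev]
        push_cast
        ring
      exact_mod_cast e2
    exact ⟨by rw [e1]; exact hq, hwin j h₀ hh₀⟩
  · obtain ⟨z, hz, hz2, hz3⟩ := hq3 h hh
    have e1 : x j + a j * (n + h) = z := by
      have e2 : ((x j + a j * (n + h) : ℕ) : ℤ) = z := by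
        rw [hz2, hev]
        push_cast
        ring
      exact_mod_cast e2
    exact ⟨by rw [e1]; exact hz3, hwin j h (mem_of_mem_erase (hP hh))⟩

end Pool.Agent.Results.MP_b8a134_nt.PrescribedPrimeLargeModuli
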